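import Pool.Agent.P.MP_c4d261_al.G.Main

/-! The number of factors of an iterated wreath product `F₁ ≀ (F₂ ≀ ( ⋯ ≀ (F_n ≀ H)))` with
nontrivial finite lamp groups over an infinite finitely presented group is a quasi-isometry
invariant.  With `H' = H` and all lamp groups cyclic of order two, the lengths `2, 1` give the
negative answer to Q1 and the lengths `3, 2` the negative answer to Q2. -/

set_option autoImplicit false

namespace Pool.Agent.Results.MP_c4d261_al.FactorCount

open Pool.Agent.P.MP_c4d261_al

theorem result (H H' : Type) [Group H] [Group H'] [Infinite H] [Infinite H']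
    [Group.IsFinitelyPresented H] [Group.IsFinitelyPresented H'] (l l' : List GrpCat.{0})
    (hl : ∀ F ∈ l, Finite F ∧ Nontrivial F) (hl' : ∀ F ∈ l', Finite F ∧ Nontrivial F)
    (h : QuasiIsometric (iterWr (GrpCat.of H) l) (iterWr (GrpCat.of H') l')) :
    l.length = l'.length :=
  length_eq (GrpCat.of H) (GrpCat.of H') l l' hl hl' h

end Pool.Agent.Results.MP_c4d261_al.FactorCount
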